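import Mathlib

set_option autoImplicit false

/-!
# Subtractive closure and products of ideals in `ℕ[X, Y, Z]`

For `I = J = ⟨1 + X⟩` in `ℕ[X, Y, Z]` the polynomial `3 + 4 X + X ^ 4` lies in the subtractive
closure of `I J`, but not in the product of the subtractive closures of `I` and `J`.
-/

namespace Pool.Agent.Results.MP_05a6d5_al.NaturalCoefficients

open MvPolynomial

/-- An ideal of a commutative semiring is subtractive if `x ∈ I` and `x + y ∈ I` imply `y ∈ I`. -/
def IsSubtractive {H : Type*} [CommSemiring H] (I : Ideal H) : Prop :=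
  ∀ x y : H, x ∈ I → x + y ∈ I → y ∈ I

/-- The subtractive closure of `I`: the smallest subtractive ideal containing `I`. -/
def scl {H : Type*} [CommSemiring H] (I : Ideal H) : Ideal H :=
  sInf {J : Ideal H | I ≤ J ∧ IsSubtractive J}

theorem mem_scl_of {H : Type*} [CommSemiring H] {I : Ideal H} {h i : H} (hi : i ∈ I)
    (hh : h + i ∈ I) : h ∈ scl I := by
  rw [scl, Submodule.mem_sInf]
  rintro J ⟨hIJ, hJ⟩
  refine hJ i h (hIJ hi) ?_
  rw [add_comm]
  exact hIJ hh

/-- The ideal of the `h` with `h + i ∈ I` for some `i ∈ I`. -/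
def cl {H : Type*} [CommSemiring H] (I : Ideal H) : Ideal H where
  carrier := {h | ∃ i ∈ I, h + i ∈ I}
  add_mem' := by
    rintro a b ⟨i, hi, hai⟩ ⟨j, hj, hbj⟩
    refine ⟨i + j, I.add_mem hi hj, ?_⟩
    have : a + b + (i + j) = (a + i) + (b + j) := by ring
    rw [this]
    exact I.add_mem hai hbj
  zero_mem' := ⟨0, I.zero_mem, by rw [add_zero]; exact I.zero_mem⟩
  smul_mem' := by
    rintro c a ⟨i, hi, hai⟩
    refine ⟨c * i, I.mul_mem_left c hi, ?_⟩
    rw [smul_eq_mul, ← mul_add]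
    exact I.mul_mem_left c hai

theorem mem_scl_iff {H : Type*} [CommSemiring H] {I : Ideal H} {h : H} :
    h ∈ scl I ↔ ∃ i ∈ I, h + i ∈ I := by
  constructor
  · intro hh
    rw [scl, Submodule.mem_sInf] at hh
    refine hh (cl I) ⟨fun x hx => ⟨0, I.zero_mem, by rwa [add_zero]⟩, ?_⟩
    rintro x y ⟨i, hi, hxi⟩ ⟨j, hj, hxyj⟩
    refine ⟨(x + i) + j, I.add_mem hxi hj, ?_⟩
    have : y + ((x + i) + j) = (x + y + j) + i := by ring
    rw [this]
    exact I.add_mem hxyj hi
  · rintro ⟨i, hi, hh⟩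
    exact mem_scl_of hi hh

/-- the ideal `⟨1 + X⟩` -/
noncomputable def I : Ideal (MvPolynomial (Fin 3) ℕ) := Ideal.span {1 + X 0}

/-- the evaluation `X ↦ -1`, `Y, Z ↦ 1` -/
noncomputable def φ : MvPolynomial (Fin 3) ℕ →+* ℤ :=
  eval₂Hom (Nat.castRingHom ℤ) ![-1, 1, 1]

theorem φ_I {f : MvPolynomial (Fin 3) ℕ} (hf : f ∈ I) : φ f = 0 := by
  rw [I, Ideal.mem_span_singleton'] at hf
  obtain ⟨a, rfl⟩ := hf
  simp [φ]

theorem φ_scl {f : MvPolynomial (Fin 3) ℕ} (hf : f ∈ scl I) : φ f = 0 := by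
  obtain ⟨i, hi, hfi⟩ := mem_scl_iff.1 hf
  have h1 := φ_I hfi
  rw [map_add, φ_I hi, add_zero] at h1
  exact h1

theorem φ_eq (f : MvPolynomial (Fin 3) ℕ) :
    φ f = ∑ d ∈ f.support, ((coeff d f : ℕ) : ℤ) * (-1) ^ (d 0) := by
  rw [φ, coe_eval₂Hom, eval₂_eq']
  refine Finset.sum_congr rfl fun d _ => ?_
  rw [Fin.prod_univ_three]
  simp

theorem exists_even {f : MvPolynomial (Fin 3) ℕ} (hf : φ f = 0) (h0 : f ≠ 0) :
    ∃ d ∈ f.support, Even (d 0) := by
  by_contra hcon
  push Not at hcon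
  have h1 : φ f = -∑ d ∈ f.support, ((coeff d f : ℕ) : ℤ) := by
    rw [φ_eq, ← Finset.sum_neg_distrib]
    refine Finset.sum_congr rfl fun d hd => ?_
    have := hcon d hd
    rw [Nat.not_even_iff_odd] at this
    rw [this.neg_one_pow]
    ring
  obtain ⟨d, hd⟩ := support_nonempty.2 h0
  have h2 : 0 < ∑ d ∈ f.support, ((coeff d f : ℕ) : ℤ) := by
    refine Finset.sum_pos' (fun _ _ => Int.natCast_nonneg _) ⟨d, hd, ?_⟩
    have := mem_support_iff.1 hd
    omega
  omega

theorem exists_odd {f : MvPolynomial (Fin 3) ℕ} (hf : φ f = 0) (h0 : f ≠ 0) :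
    ∃ d ∈ f.support, Odd (d 0) := by
  by_contra hcon
  push Not at hcon
  have h1 : φ f = ∑ d ∈ f.support, ((coeff d f : ℕ) : ℤ) := by
    rw [φ_eq]
    refine Finset.sum_congr rfl fun d hd => ?_
    have := hcon d hd
    rw [Nat.not_odd_iff_even] at this
    rw [this.neg_one_pow]
    ring
  obtain ⟨d, hd⟩ := support_nonempty.2 h0
  have h2 : 0 < ∑ d ∈ f.support, ((coeff d f : ℕ) : ℤ) := by
    refine Finset.sum_pos' (fun _ _ => Int.natCast_nonneg _) ⟨d, hd, ?_⟩
    have := mem_support_iff.1 hd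
    omega
  omega

theorem coeff_mul_ne_zero {u v : MvPolynomial (Fin 3) ℕ} {a b : Fin 3 →₀ ℕ}
    (ha : a ∈ u.support) (hb : b ∈ v.support) : coeff (a + b) (u * v) ≠ 0 := by
  classical
  rw [coeff_mul]
  intro h
  rw [Finset.sum_eq_zero_iff] at h
  have := h (a, b) (Finset.HasAntidiagonal.mem_antidiagonal.2 rfl)
  rw [mul_eq_zero] at this
  rcases this with h | h
  · exact (mem_support_iff.1 ha) h
  · exact (mem_support_iff.1 hb) h

/-- An element of the product of the closures whose monomials have `X`-degree `0`, `1` or `4`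
vanishes. -/
theorem eq_zero_of_mem {f : MvPolynomial (Fin 3) ℕ} (hf : f ∈ scl I * scl I)
    (hs : ∀ d, coeff d f ≠ 0 → d 0 = 0 ∨ d 0 = 1 ∨ d 0 = 4) : f = 0 := by
  induction hf using Submodule.mul_induction_on' with
  | mem_mul_mem u hu v hv =>
    by_contra hne
    have hu0 : u ≠ 0 := fun h => hne (by rw [h, zero_mul])
    have hv0 : v ≠ 0 := fun h => hne (by rw [h, mul_zero])
    obtain ⟨a, ha, hae⟩ := exists_even (φ_scl hu) hu0
    obtain ⟨a', ha', hao⟩ := exists_odd (φ_scl hu) hu0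
    obtain ⟨b, hb, hbe⟩ := exists_even (φ_scl hv) hv0
    obtain ⟨b', hb', hbo⟩ := exists_odd (φ_scl hv) hv0
    have h1 := hs _ (coeff_mul_ne_zero ha hb)
    have h2 := hs _ (coeff_mul_ne_zero ha hb')
    have h3 := hs _ (coeff_mul_ne_zero ha' hb)
    have h4 := hs _ (coeff_mul_ne_zero ha' hb')
    simp only [Finsupp.add_apply] at h1 h2 h3 h4
    obtain ⟨x, hx⟩ := hae
    obtain ⟨y, hy⟩ := hao
    obtain ⟨z, hz⟩ := hbe
    obtain ⟨w, hw⟩ := hbo
    omega
  | add f _ g _ ihf ihg =>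
    have h1 : f = 0 := ihf fun d hd => hs d (by rw [coeff_add]; omega)
    have h2 : g = 0 := ihg fun d hd => hs d (by rw [coeff_add]; omega)
    rw [h1, h2, add_zero]

/-- the polynomial `3 + 4 X + X ^ 4` -/
noncomputable def p : MvPolynomial (Fin 3) ℕ := 3 + 4 * X 0 + X 0 ^ 4

theorem p_mem : p ∈ scl (I * I) := by
  have hI : (1 + X 0 : MvPolynomial (Fin 3) ℕ) ∈ I := Ideal.mem_span_singleton_self _
  refine mem_scl_of (i := 2 * X 0 * ((1 + X 0) * (1 + X 0))) ?_ ?_
  · exact Ideal.mul_mem_left _ _ (Ideal.mul_mem_mul hI hI)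
  · have : p + 2 * X 0 * ((1 + X 0) * (1 + X 0)) = (3 + X 0 ^ 2) * ((1 + X 0) * (1 + X 0)) := by
      rw [p]
      ring
    rw [this]
    exact Ideal.mul_mem_left _ _ (Ideal.mul_mem_mul hI hI)

theorem p_notMem : p ∉ scl I * scl I := by
  intro h
  have hp : ∀ d, coeff d p ≠ 0 → d 0 = 0 ∨ d 0 = 1 ∨ d 0 = 4 := by
    intro d hd
    have e : p = monomial 0 3 + monomial (Finsupp.single 0 1) 4 +
        monomial (Finsupp.single 0 4) 1 := by
      rw [p, X_pow_eq_monomial, X, ← C_apply]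
      have h3 : (C 3 : MvPolynomial (Fin 3) ℕ) = 3 := map_ofNat C 3
      have h4 : (monomial (Finsupp.single 0 1) 4 : MvPolynomial (Fin 3) ℕ) =
          4 * monomial (Finsupp.single 0 1) 1 := by
        have : (4 : MvPolynomial (Fin 3) ℕ) = C 4 := (map_ofNat C 4).symm
        rw [this, C_mul_monomial, mul_one]
      rw [h3, h4]
    rw [e, coeff_add, coeff_add, coeff_monomial, coeff_monomial, coeff_monomial] at hd
    by_cases h0 : (0 : Fin 3 →₀ ℕ) = d
    · left
      rw [← h0]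
      rfl
    · by_cases h1 : Finsupp.single 0 1 = d
      · right; left
        rw [← h1]
        simp
      · by_cases h2 : Finsupp.single 0 4 = d
        · right; right
          rw [← h2]
          simp
        · simp [h0, h1, h2] at hd
  have h0 := eq_zero_of_mem h hp
  have : constantCoeff p = 0 := by rw [h0, map_zero]
  rw [p, map_add, map_add, map_mul, map_pow, constantCoeff_X, mul_zero, zero_pow (by norm_num),
    map_ofNat] at this
  omega

/-- The polynomial semiring in three variables over the zerosumfree semiring `ℕ` does not satisfy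
`scl I * scl J = scl (I * J)` for all ideals `I` and `J`. -/
theorem result : ∃ (S₀ : Type) (_ : CommSemiring S₀), (1 : S₀) ≠ 0 ∧
    (∀ a b : S₀, a + b = 0 → a = 0 ∧ b = 0) ∧
    ∃ I J : Ideal (MvPolynomial (Fin 3) S₀), scl I * scl J ≠ scl (I * J) :=
  ⟨ℕ, inferInstance, one_ne_zero, fun a b h => by omega, I, I, fun h => p_notMem (h ▸ p_mem)⟩

end Pool.Agent.Results.MP_05a6d5_al.NaturalCoefficients
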